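import Mathlib

/-!
MP_9b3484_nt (Erdos-Mahler), row LF: a polynomial lower bound for
`|x log ((n+1)/n) - y log ((n+2)/(n+1))|`, `n ≥ 200000`, by the functions
`∫ ((t-n)(t-n-1)(t-n-2))^k / t^(k+1) dt`.
-/

set_option autoImplicit false

open Finset

namespace Pool.Agent.Helper20.EM

/-- `(t - n) (t - n - 1) (t - n - 2)` -/
noncomputable def Q (n : ℕ) : Polynomial ℤ :=
  (Polynomial.X - Polynomial.C (n : ℤ)) * (Polynomial.X - Polynomial.C ((n : ℤ) + 1)) *
    (Polynomial.X - Polynomial.C ((n : ℤ) + 2))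

/-- the coefficients of `Q n ^ k` -/
noncomputable def cf (n k i : ℕ) : ℤ := (Q n ^ k).coeff i

theorem Q_natDegree (n : ℕ) : (Q n).natDegree = 3 := by
  unfold Q
  compute_degree!

theorem Q_aeval (n : ℕ) (t : ℝ) :
    Polynomial.aeval t (Q n) = (t - n) * (t - (n + 1)) * (t - (n + 2)) := by
  unfold Q
  simp only [map_mul, map_sub, Polynomial.aeval_X, Polynomial.aeval_C]
  simp

theorem cf_sum (n k : ℕ) (t : ℝ) :
    ∑ i ∈ range (3 * k + 1), (cf n k i : ℝ) * t ^ i =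
      ((t - n) * (t - (n + 1)) * (t - (n + 2))) ^ k := by
  have h1 : (Q n ^ k).natDegree < 3 * k + 1 := by
    refine lt_of_le_of_lt Polynomial.natDegree_pow_le ?_
    rw [Q_natDegree]
    omega
  rw [← Q_aeval, ← map_pow, Polynomial.aeval_eq_sum_range' h1]
  refine Finset.sum_congr rfl fun i _ => ?_
  unfold cf
  rw [zsmul_eq_mul]

/-- expansion of `Q` -/
theorem Q_eq (n : ℕ) : Q n = Polynomial.X ^ 3 + Polynomial.C (-(3 * (n : ℤ) + 3)) * Polynomial.X ^ 2 +
    Polynomial.C (3 * (n : ℤ) ^ 2 + 6 * n + 2) * Polynomial.X ^ 1 +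
    Polynomial.C (-((n : ℤ) * (n + 1) * (n + 2))) := by
  unfold Q
  simp only [map_neg, map_add, map_mul, map_pow, Polynomial.C_ofNat, map_one, map_natCast]
  ring

theorem cf_succ (n k i : ℕ) : cf n (k + 1) i =
    (if 3 ≤ i then cf n k (i - 3) else 0) + -(3 * (n : ℤ) + 3) * (if 2 ≤ i then cf n k (i - 2) else 0) +
    (3 * (n : ℤ) ^ 2 + 6 * n + 2) * (if 1 ≤ i then cf n k (i - 1) else 0) +
    -((n : ℤ) * (n + 1) * (n + 2)) * cf n k i := by
  unfold cf
  have h : Q n ^ (k + 1) = Q n ^ k * Polynomial.X ^ 3 +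
      Polynomial.C (-(3 * (n : ℤ) + 3)) * (Q n ^ k * Polynomial.X ^ 2) +
      Polynomial.C (3 * (n : ℤ) ^ 2 + 6 * n + 2) * (Q n ^ k * Polynomial.X ^ 1) +
      Polynomial.C (-((n : ℤ) * (n + 1) * (n + 2))) * Q n ^ k := by
    calc Q n ^ (k + 1) = Q n ^ k * Q n := pow_succ _ _
      _ = Q n ^ k * (Polynomial.X ^ 3 + Polynomial.C (-(3 * (n : ℤ) + 3)) * Polynomial.X ^ 2 +
          Polynomial.C (3 * (n : ℤ) ^ 2 + 6 * n + 2) * Polynomial.X ^ 1 +
          Polynomial.C (-((n : ℤ) * (n + 1) * (n + 2)))) := by rw [← Q_eq]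
      _ = _ := by ring
  rw [h, Polynomial.coeff_add, Polynomial.coeff_add, Polynomial.coeff_add, Polynomial.coeff_C_mul,
    Polynomial.coeff_C_mul, Polynomial.coeff_C_mul, Polynomial.coeff_mul_X_pow',
    Polynomial.coeff_mul_X_pow', Polynomial.coeff_mul_X_pow']

/-- `(n(n+1)(n+2))^(k-i)` divides the coefficient of `t^i` -/
theorem cf_dvd (n k : ℕ) : ∀ i, ((n : ℤ) * (n + 1) * (n + 2)) ^ (k - i) ∣ cf n k i := by
  induction k with
  | zero =>
    intro i
    simp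
  | succ k ih =>
    intro i
    rw [cf_succ]
    have hle : ∀ j, j + 1 ≤ i → ((n : ℤ) * (n + 1) * (n + 2)) ^ (k + 1 - i) ∣ cf n k j := by
      intro j hj
      exact (pow_dvd_pow _ (by omega)).trans (ih j)
    refine dvd_add (dvd_add (dvd_add ?_ ?_) ?_) ?_
    · split_ifs with h
      · exact hle _ (by omega)
      · exact dvd_zero _
    · refine Dvd.dvd.mul_left ?_ _
      split_ifs with h
      · exact hle _ (by omega)
      · exact dvd_zero _
    · refine Dvd.dvd.mul_left ?_ _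
      split_ifs with h
      · exact hle _ (by omega)
      · exact dvd_zero _
    · rw [neg_mul, dvd_neg]
      by_cases hi : i ≤ k
      · rw [show k + 1 - i = (k - i) + 1 by omega, pow_succ, mul_comm]
        exact mul_dvd_mul_left _ (ih i)
      · rw [show k + 1 - i = 0 by omega, pow_zero]
        exact one_dvd _

/-- the coefficients of `Q n ^ k` are at most `(6 (n+2)^3)^k` -/
theorem cf_le (n k : ℕ) : ∀ i, |cf n k i| ≤ (12 * ((n : ℤ) + 2) ^ 3) ^ k := by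
  induction k with
  | zero =>
    intro i
    unfold cf
    rw [pow_zero, pow_zero, Polynomial.coeff_one]
    split_ifs <;> simp
  | succ k ih =>
    intro i
    rw [cf_succ]
    set M : ℤ := (12 * ((n : ℤ) + 2) ^ 3) ^ k with hM
    have hM0 : 0 ≤ M := by positivity
    have hn : (0 : ℤ) ≤ n := by positivity
    have hit : ∀ (p : Prop) [Decidable p] (j : ℕ), |if p then cf n k j else 0| ≤ M := by
      intro p _ j
      split_ifs
      · exact ih j
      · simpa using hM0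
    have a1 := hit (3 ≤ i) (i - 3)
    have a2 := hit (2 ≤ i) (i - 2)
    have a3 := hit (1 ≤ i) (i - 1)
    have a4 := ih i
    have b2 : |-(3 * (n : ℤ) + 3) * (if 2 ≤ i then cf n k (i - 2) else 0)| ≤ (3 * (n : ℤ) + 3) * M := by
      rw [abs_mul, abs_neg, abs_of_nonneg (by positivity : (0 : ℤ) ≤ 3 * (n : ℤ) + 3)]
      exact mul_le_mul_of_nonneg_left a2 (by positivity)
    have b3 : |(3 * (n : ℤ) ^ 2 + 6 * n + 2) * (if 1 ≤ i then cf n k (i - 1) else 0)| ≤
        (3 * (n : ℤ) ^ 2 + 6 * n + 2) * M := by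
      rw [abs_mul, abs_of_nonneg (by positivity : (0 : ℤ) ≤ 3 * (n : ℤ) ^ 2 + 6 * n + 2)]
      exact mul_le_mul_of_nonneg_left a3 (by positivity)
    have b4 : |-((n : ℤ) * (n + 1) * (n + 2)) * cf n k i| ≤ ((n : ℤ) * (n + 1) * (n + 2)) * M := by
      rw [abs_mul, abs_neg, abs_of_nonneg (by positivity : (0 : ℤ) ≤ (n : ℤ) * (n + 1) * (n + 2))]
      exact mul_le_mul_of_nonneg_left a4 (by positivity)
    have h5 : 1 + (3 * (n : ℤ) + 3) + (3 * (n : ℤ) ^ 2 + 6 * n + 2) + (n : ℤ) * (n + 1) * (n + 2) ≤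
        12 * ((n : ℤ) + 2) ^ 3 := by
      nlinarith [mul_nonneg hn hn, mul_nonneg (mul_nonneg hn hn) hn]
    have h6 := mul_le_mul_of_nonneg_right h5 hM0
    calc _ ≤ |if 3 ≤ i then cf n k (i - 3) else 0| +
          |-(3 * (n : ℤ) + 3) * (if 2 ≤ i then cf n k (i - 2) else 0)| +
          |(3 * (n : ℤ) ^ 2 + 6 * n + 2) * (if 1 ≤ i then cf n k (i - 1) else 0)| +
          |-((n : ℤ) * (n + 1) * (n + 2)) * cf n k i| := by
            refine (abs_add_le _ _).trans (add_le_add_left ?_ _)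
            refine (abs_add_le _ _).trans (add_le_add_left ?_ _)
            exact abs_add_le _ _
      _ ≤ M + (3 * (n : ℤ) + 3) * M + (3 * (n : ℤ) ^ 2 + 6 * n + 2) * M +
          ((n : ℤ) * (n + 1) * (n + 2)) * M := by linarith
      _ = (1 + (3 * (n : ℤ) + 3) + (3 * (n : ℤ) ^ 2 + 6 * n + 2) + (n : ℤ) * (n + 1) * (n + 2)) * M := by
          ring
      _ ≤ 12 * ((n : ℤ) + 2) ^ 3 * M := h6
      _ = (12 * ((n : ℤ) + 2) ^ 3) ^ (k + 1) := by rw [hM, pow_succ]; ring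

/-- antiderivative of `t ^ (i - k - 1)` -/
noncomputable def G (k i : ℕ) (t : ℝ) : ℝ :=
  if i = k then Real.log t else t ^ ((i : ℤ) - (k : ℤ)) / ((i : ℝ) - (k : ℝ))

/-- antiderivative of `(Q n t) ^ k / t ^ (k + 1)` -/
noncomputable def F (n k : ℕ) (t : ℝ) : ℝ := ∑ i ∈ range (3 * k + 1), (cf n k i : ℝ) * G k i t

theorem G_deriv (k i : ℕ) (t : ℝ) (ht : 0 < t) :
    HasDerivAt (G k i) (t ^ i / t ^ (k + 1)) t := by
  unfold G
  by_cases h : i = k
  · simp only [h, if_true]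
    have : t ^ k / t ^ (k + 1) = t⁻¹ := by
      rw [pow_succ]
      field_simp
    rw [this]
    exact Real.hasDerivAt_log ht.ne'
  · simp only [h, if_false]
    have hne : ((i : ℝ) - (k : ℝ)) ≠ 0 := by
      rw [sub_ne_zero]
      exact_mod_cast h
    have h1 := (hasDerivAt_zpow ((i : ℤ) - (k : ℤ)) t (Or.inl ht.ne')).div_const ((i : ℝ) - (k : ℝ))
    have h2 : (((i : ℤ) - (k : ℤ) : ℤ) : ℝ) * t ^ ((i : ℤ) - (k : ℤ) - 1) / ((i : ℝ) - (k : ℝ)) =
        t ^ i / t ^ (k + 1) := by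
      push_cast
      rw [mul_div_assoc, mul_div_cancel₀ _ hne] 
      rw [show (i : ℤ) - (k : ℤ) - 1 = (i : ℤ) - ((k + 1 : ℕ) : ℤ) by push_cast; ring,
        zpow_sub₀ ht.ne', zpow_natCast, zpow_natCast]
    rw [h2] at h1
    exact h1

theorem F_deriv (n k : ℕ) (t : ℝ) (ht : 0 < t) :
    HasDerivAt (F n k) (((t - n) * (t - (n + 1)) * (t - (n + 2))) ^ k / t ^ (k + 1)) t := by
  have h1 : HasDerivAt (F n k) (∑ i ∈ range (3 * k + 1), (cf n k i : ℝ) * (t ^ i / t ^ (k + 1))) t := by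
    unfold F
    refine HasDerivAt.fun_sum fun i _ => ?_
    exact (G_deriv k i t ht).const_mul _
  have h2 : ∑ i ∈ range (3 * k + 1), (cf n k i : ℝ) * (t ^ i / t ^ (k + 1)) =
      ((t - n) * (t - (n + 1)) * (t - (n + 2))) ^ k / t ^ (k + 1) := by
    rw [← cf_sum, Finset.sum_div]
    refine Finset.sum_congr rfl fun i _ => ?_
    ring
  rw [← h2]
  exact h1

/-- mean value theorem -/
theorem F_mvt (n k : ℕ) (a b : ℝ) (ha : 0 < a) (hab : a < b) : ∃ t ∈ Set.Ioo a b,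
    F n k b - F n k a = (b - a) * (((t - n) * (t - (n + 1)) * (t - (n + 2))) ^ k / t ^ (k + 1)) := by
  obtain ⟨t, ht, h⟩ := exists_hasDerivAt_eq_slope (F n k)
    (fun t => ((t - n) * (t - (n + 1)) * (t - (n + 2))) ^ k / t ^ (k + 1)) hab
    (fun t ht => (F_deriv n k t (ha.trans_le ht.1)).continuousAt.continuousWithinAt)
    (fun t ht => F_deriv n k t (ha.trans ht.1))
  refine ⟨t, ht, ?_⟩
  rw [h]
  field_simp [sub_ne_zero.mpr hab.ne']

/-- integrality of the rational part -/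
theorem F_int (n k a : ℕ) (ha : 1 ≤ a) (hT : (a : ℤ) ∣ (n : ℤ) * (n + 1) * (n + 2)) : ∃ z : ℤ,
    (Nat.lcmUpto (2 * k) : ℝ) * F n k a =
      (Nat.lcmUpto (2 * k) : ℝ) * cf n k k * Real.log a + z := by
  have ha0 : (a : ℝ) ≠ 0 := by
    have : (1 : ℝ) ≤ a := by exact_mod_cast ha
    positivity
  have hD : ∀ m, 1 ≤ m → m ≤ 2 * k → m ∣ Nat.lcmUpto (2 * k) := by
    intro m h1 h2
    exact Finset.dvd_lcm (f := id) (Finset.mem_Icc.mpr ⟨h1, h2⟩)
  have key : ∀ i ∈ range (3 * k + 1), ∃ z : ℤ,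
      (Nat.lcmUpto (2 * k) : ℝ) * ((cf n k i : ℝ) * G k i a) =
        (if i = k then (Nat.lcmUpto (2 * k) : ℝ) * cf n k k * Real.log a else 0) + z := by
    intro i hi
    rw [Finset.mem_range] at hi
    unfold G
    rcases lt_trichotomy i k with h | h | h
    · have h1 : (a : ℤ) ^ (k - i) ∣ cf n k i :=
        (pow_dvd_pow_of_dvd hT (k - i)).trans (cf_dvd n k i)
      obtain ⟨f, hf⟩ := h1
      obtain ⟨e, he⟩ := hD (k - i) (by omega) (by omega)
      refine ⟨-(e * f), ?_⟩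
      rw [if_neg h.ne, if_neg h.ne, he, hf, zero_add]
      have hki : ((k - i : ℕ) : ℝ) ≠ 0 := by
        have : 0 < k - i := by omega
        positivity
      have e1 : (i : ℝ) - (k : ℝ) = -((k - i : ℕ) : ℝ) := by
        rw [Nat.cast_sub h.le]
        ring
      have e2 : (i : ℤ) - (k : ℤ) = -((k - i : ℕ) : ℤ) := by
        rw [Nat.cast_sub h.le]
        ring
      rw [e1, e2, zpow_neg, zpow_natCast]
      push_cast [Nat.cast_sub h.le]
      rw [← Nat.cast_sub h.le]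
      field_simp
    · refine ⟨0, ?_⟩
      rw [if_pos h, if_pos h, h]
      push_cast
      ring
    · obtain ⟨e, he⟩ := hD (i - k) (by omega) (by omega)
      refine ⟨e * cf n k i * (a : ℤ) ^ (i - k), ?_⟩
      rw [if_neg h.ne', if_neg h.ne', he, zero_add]
      have hki : ((i - k : ℕ) : ℝ) ≠ 0 := by
        have : 0 < i - k := by omega
        positivity
      have e1 : (i : ℝ) - (k : ℝ) = ((i - k : ℕ) : ℝ) := by
        rw [Nat.cast_sub h.le]
      have e2 : (i : ℤ) - (k : ℤ) = ((i - k : ℕ) : ℤ) := by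
        rw [Nat.cast_sub h.le]
      rw [e1, e2, zpow_natCast]
      push_cast
      field_simp
  choose! z hz using key
  refine ⟨∑ i ∈ range (3 * k + 1), z i, ?_⟩
  unfold F
  rw [Finset.mul_sum, Finset.sum_congr rfl hz, Finset.sum_add_distrib, Finset.sum_ite_eq' _ k,
    if_pos (Finset.mem_range.mpr (by omega))]
  push_cast
  ring

theorem lcm_le (k : ℕ) : (Nat.lcmUpto (2 * k) : ℝ) ≤ 50000 ^ k := by
  have h0 : (0 : ℝ) < Nat.lcmUpto (2 * k) := by exact_mod_cast Nat.lcmUpto_pos _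
  have h1 := Chebyshev.psi_le_const_mul_self (x := ((2 * k : ℕ) : ℝ)) (by positivity)
  rw [Chebyshev.psi_eq_log_lcmUpto] at h1
  have h2 : (Nat.lcmUpto (2 * k) : ℝ) ≤ Real.exp ((Real.log 4 + 4) * ((2 * k : ℕ) : ℝ)) := by
    rw [← Real.log_le_iff_le_exp h0]
    exact h1
  refine h2.trans ?_
  have h3 : Real.exp ((Real.log 4 + 4) * ((2 * k : ℕ) : ℝ)) = (16 * Real.exp 1 ^ 8) ^ k := by
    rw [← Real.exp_nat_mul, show (16 : ℝ) = Real.exp (2 * Real.log 4) by
      rw [show (2 : ℝ) * Real.log 4 = Real.log 4 + Real.log 4 by ring, Real.exp_add,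
        Real.exp_log (by norm_num)]
      norm_num, ← Real.exp_add, ← Real.exp_nat_mul]
    congr 1
    push_cast
    ring
  rw [h3]
  refine pow_le_pow_left₀ (by positivity) ?_ k
  have h4 : Real.exp 1 ≤ 2.72 := by
    have := Real.exp_one_lt_d9
    linarith
  have h5 : Real.exp 1 ^ 8 ≤ (2.72 : ℝ) ^ 8 := pow_le_pow_left₀ (Real.exp_pos 1).le h4 8
  calc 16 * Real.exp 1 ^ 8 ≤ 16 * (2.72 : ℝ) ^ 8 := by linarith
    _ ≤ 50000 := by norm_num

/-- the value of the cubic -/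
theorem cubic_abs_le (n : ℕ) (t : ℝ) (h1 : (n : ℝ) ≤ t) (h2 : t ≤ n + 2) :
    |(t - n) * (t - (n + 1)) * (t - (n + 2))| ≤ 1 := by
  set s := t - n with hs
  have e : (t - n) * (t - (n + 1)) * (t - (n + 2)) = s * (s - 1) * (s - 2) := by
    rw [hs]
    ring
  have hs0 : 0 ≤ s := by linarith
  have hs2 : s ≤ 2 := by linarith
  rw [show s * (t - (n + 1)) * (t - (n + 2)) = s * (s - 1) * (s - 2) by rw [hs]; ring, abs_le]
  constructor
  · nlinarith [mul_nonneg hs0 (by linarith : (0 : ℝ) ≤ 2 - s), sq_nonneg (s - 1)]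
  · nlinarith [mul_nonneg hs0 (by linarith : (0 : ℝ) ≤ 2 - s), sq_nonneg (s - 1)]

/-- the first integral: positive and small, but not too small -/
theorem I1_bounds (n k : ℕ) (hn : 1 ≤ n) :
    1 / 2 * (5 / 64) ^ k / ((n : ℝ) + 2) ^ (k + 1) ≤ F n k (n + 1) - F n k n ∧
      F n k (n + 1) - F n k n ≤ 1 / (n : ℝ) ^ k := by
  have hn0 : (1 : ℝ) ≤ n := by exact_mod_cast hn
  constructor
  · obtain ⟨t1, ht1, e1⟩ := F_mvt n k n (n + 1 / 4) (by linarith) (by linarith)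
    obtain ⟨t2, ht2, e2⟩ := F_mvt n k (n + 1 / 4) (n + 3 / 4) (by linarith) (by linarith)
    obtain ⟨t3, ht3, e3⟩ := F_mvt n k (n + 3 / 4) (n + 1) (by linarith) (by linarith)
    have pos : ∀ t : ℝ, (n : ℝ) < t → t < n + 1 →
        0 ≤ ((t - n) * (t - (n + 1)) * (t - (n + 2))) ^ k / t ^ (k + 1) := by
      intro t h1 h2
      have : 0 ≤ (t - n) * (t - (n + 1)) * (t - (n + 2)) := by
        have h3 : 0 ≤ (t - n) * ((n + 1) - t) * ((n + 2) - t) :=
          mul_nonneg (mul_nonneg (by linarith) (by linarith)) (by linarith)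
        nlinarith
      have ht : 0 < t := by linarith
      positivity
    have p1 := pos t1 ht1.1 (by linarith [ht1.2])
    have p3 := pos t3 (by linarith [ht3.1]) ht3.2
    have p2 : (5 / 64) ^ k / ((n : ℝ) + 2) ^ (k + 1) ≤
        ((t2 - n) * (t2 - (n + 1)) * (t2 - (n + 2))) ^ k / t2 ^ (k + 1) := by
      have h1 := ht2.1
      have h2 := ht2.2
      have ht : 0 < t2 := by linarith
      have h3 : (5 : ℝ) / 64 ≤ (t2 - n) * (t2 - (n + 1)) * (t2 - (n + 2)) := by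
        have a1 : (1 : ℝ) / 4 * (1 / 4) ≤ (t2 - n) * ((n + 1) - t2) :=
          mul_le_mul (by linarith) (by linarith) (by norm_num) (by linarith)
        have a2 : (1 : ℝ) / 4 * (1 / 4) * (5 / 4) ≤ (t2 - n) * ((n + 1) - t2) * ((n + 2) - t2) :=
          mul_le_mul a1 (by linarith) (by norm_num) (by nlinarith)
        nlinarith
      refine div_le_div₀ (pow_nonneg (by linarith) _) (pow_le_pow_left₀ (by norm_num) h3 k)
        (pow_pos ht _) (pow_le_pow_left₀ ht.le (by linarith) _)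
    have e : F n k (n + 1) - F n k n = (F n k (n + 1) - F n k (n + 3 / 4)) +
        (F n k (n + 3 / 4) - F n k (n + 1 / 4)) + (F n k (n + 1 / 4) - F n k n) := by ring
    rw [e, e1, e2, e3]
    have q1 : 0 ≤ ((n : ℝ) + 1 / 4 - n) * (((t1 - n) * (t1 - (n + 1)) * (t1 - (n + 2))) ^ k /
        t1 ^ (k + 1)) := mul_nonneg (by linarith) p1
    have q3 : 0 ≤ ((n : ℝ) + 1 - (n + 3 / 4)) * (((t3 - n) * (t3 - (n + 1)) * (t3 - (n + 2))) ^ k /
        t3 ^ (k + 1)) := mul_nonneg (by linarith) p3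
    have q2 : 1 / 2 * ((5 / 64) ^ k / ((n : ℝ) + 2) ^ (k + 1)) ≤
        ((n : ℝ) + 3 / 4 - (n + 1 / 4)) * (((t2 - n) * (t2 - (n + 1)) * (t2 - (n + 2))) ^ k /
        t2 ^ (k + 1)) := by
      have : (n : ℝ) + 3 / 4 - (n + 1 / 4) = 1 / 2 := by ring
      rw [this]
      exact mul_le_mul_of_nonneg_left p2 (by norm_num)
    rw [mul_div_assoc]
    linarith
  · obtain ⟨t, ht, e⟩ := F_mvt n k n (n + 1) (by linarith) (by linarith)
    have h1 := ht.1
    have h2 := ht.2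
    have ht0 : 0 < t := by linarith
    rw [e]
    have h3 := cubic_abs_le n t h1.le (by linarith)
    have h4 : ((t - n) * (t - (n + 1)) * (t - (n + 2))) ^ k ≤ 1 := by
      refine (le_abs_self _).trans ?_
      rw [abs_pow]
      exact pow_le_one₀ (abs_nonneg _) h3
    have h5 : (n : ℝ) ^ k ≤ t ^ (k + 1) := by
      calc (n : ℝ) ^ k ≤ t ^ k := pow_le_pow_left₀ (by linarith) h1.le k
        _ ≤ t ^ (k + 1) := pow_le_pow_right₀ (by linarith) (by omega)
    have h6 : (n : ℝ) + 1 - n = 1 := by ring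
    rw [h6, one_mul]
    exact div_le_div₀ (by norm_num) h4 (by positivity) h5

/-- the second integral: negative (k odd) and small, but not too small -/
theorem I2_bounds (n k : ℕ) (hn : 1 ≤ n) (hk : Odd k) :
    1 / 2 * (5 / 64) ^ k / ((n : ℝ) + 2) ^ (k + 1) ≤ F n k (n + 1) - F n k (n + 2) ∧
      F n k (n + 1) - F n k (n + 2) ≤ 1 / (n : ℝ) ^ k := by
  have hn0 : (1 : ℝ) ≤ n := by exact_mod_cast hn
  have neg : ∀ t : ℝ, ((t - n) * (t - (n + 1)) * (t - (n + 2))) ^ k =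
      -((t - n) * (t - (n + 1)) * ((n + 2) - t)) ^ k := by
    intro t
    rw [← hk.neg_pow]
    congr 1
    ring
  constructor
  · obtain ⟨t1, ht1, e1⟩ := F_mvt n k (n + 1) (n + 5 / 4) (by linarith) (by linarith)
    obtain ⟨t2, ht2, e2⟩ := F_mvt n k (n + 5 / 4) (n + 7 / 4) (by linarith) (by linarith)
    obtain ⟨t3, ht3, e3⟩ := F_mvt n k (n + 7 / 4) (n + 2) (by linarith) (by linarith)
    rw [neg] at e1 e2 e3
    have pos : ∀ t : ℝ, (n : ℝ) + 1 < t → t < n + 2 →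
        0 ≤ ((t - n) * (t - (n + 1)) * ((n + 2) - t)) ^ k / t ^ (k + 1) := by
      intro t h1 h2
      have : 0 ≤ (t - n) * (t - (n + 1)) * ((n + 2) - t) :=
        mul_nonneg (mul_nonneg (by linarith) (by linarith)) (by linarith)
      have ht : 0 < t := by linarith
      positivity
    have p1 := pos t1 ht1.1 (by linarith [ht1.2])
    have p3 := pos t3 (by linarith [ht3.1]) ht3.2
    have p2 : (5 / 64) ^ k / ((n : ℝ) + 2) ^ (k + 1) ≤
        ((t2 - n) * (t2 - (n + 1)) * ((n + 2) - t2)) ^ k / t2 ^ (k + 1) := by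
      have h1 := ht2.1
      have h2 := ht2.2
      have ht : 0 < t2 := by linarith
      have h3 : (5 : ℝ) / 64 ≤ (t2 - n) * (t2 - (n + 1)) * ((n + 2) - t2) := by
        have a1 : (5 : ℝ) / 4 * (1 / 4) ≤ (t2 - n) * (t2 - (n + 1)) :=
          mul_le_mul (by linarith) (by linarith) (by norm_num) (by linarith)
        have a2 : (5 : ℝ) / 4 * (1 / 4) * (1 / 4) ≤ (t2 - n) * (t2 - (n + 1)) * ((n + 2) - t2) :=
          mul_le_mul a1 (by linarith) (by norm_num) (by nlinarith)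
        linarith
      refine div_le_div₀ (pow_nonneg (by linarith) _) (pow_le_pow_left₀ (by norm_num) h3 k)
        (pow_pos ht _) (pow_le_pow_left₀ ht.le (by linarith) _)
    have e : F n k (n + 1) - F n k (n + 2) = -((F n k (n + 2) - F n k (n + 7 / 4)) +
        (F n k (n + 7 / 4) - F n k (n + 5 / 4)) + (F n k (n + 5 / 4) - F n k (n + 1))) := by ring
    rw [e, e1, e2, e3]
    have q1 : 0 ≤ ((n : ℝ) + 5 / 4 - (n + 1)) * (((t1 - n) * (t1 - (n + 1)) * ((n + 2) - t1)) ^ k /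
        t1 ^ (k + 1)) := mul_nonneg (by linarith) p1
    have q3 : 0 ≤ ((n : ℝ) + 2 - (n + 7 / 4)) * (((t3 - n) * (t3 - (n + 1)) * ((n + 2) - t3)) ^ k /
        t3 ^ (k + 1)) := mul_nonneg (by linarith) p3
    have q2 : 1 / 2 * ((5 / 64) ^ k / ((n : ℝ) + 2) ^ (k + 1)) ≤
        ((n : ℝ) + 7 / 4 - (n + 5 / 4)) * (((t2 - n) * (t2 - (n + 1)) * ((n + 2) - t2)) ^ k /
        t2 ^ (k + 1)) := by
      have : (n : ℝ) + 7 / 4 - (n + 5 / 4) = 1 / 2 := by ring
      rw [this]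
      exact mul_le_mul_of_nonneg_left p2 (by norm_num)
    rw [mul_div_assoc]
    simp only [neg_div, mul_neg]
    linarith
  · obtain ⟨t, ht, e⟩ := F_mvt n k (n + 1) (n + 2) (by linarith) (by linarith)
    have h1 := ht.1
    have h2 := ht.2
    have ht0 : 0 < t := by linarith
    have e' : F n k (n + 1) - F n k (n + 2) =
        -(((t - n) * (t - (n + 1)) * (t - (n + 2))) ^ k / t ^ (k + 1)) := by
      have h6 : (n : ℝ) + 2 - (n + 1) = 1 := by ring
      rw [h6, one_mul] at e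
      linarith
    rw [e']
    have h3 := cubic_abs_le n t (by linarith) (by linarith)
    have h4 : -(((t - n) * (t - (n + 1)) * (t - (n + 2))) ^ k) ≤ 1 := by
      refine (neg_le_abs _).trans ?_
      rw [abs_pow]
      exact pow_le_one₀ (abs_nonneg _) h3
    have h5 : (n : ℝ) ^ k ≤ t ^ (k + 1) := by
      calc (n : ℝ) ^ k ≤ t ^ k := pow_le_pow_left₀ (by linarith) (by linarith) k
        _ ≤ t ^ (k + 1) := pow_le_pow_right₀ (by linarith) (by omega)
    rw [← neg_div]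
    exact div_le_div₀ (by norm_num) h4 (by positivity) h5

/-- one value of `k` -/
theorem LFk (n k : ℕ) (hn : 1 ≤ n) (hk : Odd k) (x y : ℕ) (hxy : x + y ≠ 0)
    (hsmall : 2 * ((x : ℝ) + y) * 50000 ^ k ≤ (n : ℝ) ^ k) :
    1 / 2 * (5 / 64) ^ k / ((n : ℝ) + 2) ^ (k + 1) / (50000 ^ k * (12 * ((n : ℝ) + 2) ^ 3) ^ k) ≤
      |x * Real.log (((n : ℝ) + 1) / n) - y * Real.log (((n : ℝ) + 2) / (n + 1))| := by
  have hn0 : (1 : ℝ) ≤ n := by exact_mod_cast hn
  obtain ⟨z0, hz0⟩ := F_int n k n hn (Dvd.intro ((n + 1) * (n + 2)) (by ring))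
  obtain ⟨z1, hz1⟩ := F_int n k (n + 1) (by omega) (Dvd.intro (n * (n + 2)) (by push_cast; ring))
  obtain ⟨z2, hz2⟩ := F_int n k (n + 2) (by omega) (Dvd.intro (n * (n + 1)) (by push_cast; ring))
  push_cast at hz1 hz2
  obtain ⟨a1, b1⟩ := I1_bounds n k hn
  obtain ⟨a2, b2⟩ := I2_bounds n k hn hk
  set D : ℝ := (Nat.lcmUpto (2 * k) : ℝ) with hD
  have hD1 : 1 ≤ D := by
    rw [hD]
    exact_mod_cast Nat.lcmUpto_pos _
  have hDle : D ≤ 50000 ^ k := lcm_le k
  set B : ℝ := (cf n k k : ℝ) with hB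
  have hBle : |B| ≤ (12 * ((n : ℝ) + 2) ^ 3) ^ k := by
    have := cf_le n k k
    rw [hB]
    exact_mod_cast this
  have hx0 : (0 : ℝ) ≤ x := by positivity
  have hy0 : (0 : ℝ) ≤ y := by positivity
  have hxy1 : (1 : ℝ) ≤ x + y := by
    have : 1 ≤ x + y := by omega
    exact_mod_cast this
  set L : ℝ := x * Real.log (((n : ℝ) + 1) / n) - y * Real.log (((n : ℝ) + 2) / (n + 1)) with hL
  have hlog1 : Real.log (((n : ℝ) + 1) / n) = Real.log (n + 1) - Real.log n :=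
    Real.log_div (by linarith) (by linarith)
  have hlog2 : Real.log (((n : ℝ) + 2) / (n + 1)) = Real.log (n + 2) - Real.log (n + 1) :=
    Real.log_div (by linarith) (by linarith)
  set J : ℝ := x * (F n k (n + 1) - F n k n) + y * (F n k (n + 1) - F n k (n + 2)) with hJ
  set m : ℝ := 1 / 2 * (5 / 64) ^ k / ((n : ℝ) + 2) ^ (k + 1) with hm
  have hm0 : 0 < m := by
    rw [hm]
    positivity
  have hJlow : m ≤ J := by
    have h1 : x * m ≤ x * (F n k (n + 1) - F n k n) := mul_le_mul_of_nonneg_left a1 hx0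
    have h2 : y * m ≤ y * (F n k (n + 1) - F n k (n + 2)) := mul_le_mul_of_nonneg_left a2 hy0
    have h3 : m ≤ (x + y) * m := by nlinarith
    rw [hJ]
    linarith
  have hJup : D * J ≤ 1 / 2 := by
    have h1 : x * (F n k (n + 1) - F n k n) ≤ x * (1 / (n : ℝ) ^ k) :=
      mul_le_mul_of_nonneg_left b1 hx0
    have h2 : y * (F n k (n + 1) - F n k (n + 2)) ≤ y * (1 / (n : ℝ) ^ k) :=
      mul_le_mul_of_nonneg_left b2 hy0
    have h3 : J ≤ (x + y) * (1 / (n : ℝ) ^ k) := by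
      rw [hJ]
      linarith
    have hnk : 0 < (n : ℝ) ^ k := by positivity
    have h4 : D * J ≤ 50000 ^ k * ((x + y) * (1 / (n : ℝ) ^ k)) :=
      mul_le_mul hDle h3 (hm0.le.trans hJlow) (by positivity)
    have h5 : 50000 ^ k * ((x + y) * (1 / (n : ℝ) ^ k)) ≤ 1 / 2 := by
      rw [← mul_assoc, mul_one_div, div_le_iff₀ hnk]
      linarith
    linarith
  have hz : D * J = D * B * L + ((x : ℤ) * (z1 - z0) + (y : ℤ) * (z1 - z2) : ℤ) := by
    rw [hJ, hL, hlog1, hlog2]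
    push_cast
    have e : D * (x * (F n k (n + 1) - F n k n) + y * (F n k (n + 1) - F n k (n + 2))) =
        x * (D * F n k (n + 1) - D * F n k n) + y * (D * F n k (n + 1) - D * F n k (n + 2)) := by
      ring
    rw [e, hz0, hz1, hz2]
    ring
  have hBL : m ≤ D * (|B| * |L|) := by
    rw [← abs_mul]
    have e : D * |B * L| = |D * B * L| := by
      rw [mul_assoc, abs_mul D (B * L), abs_of_pos (by linarith : (0 : ℝ) < D)]
    rw [e]
    set z : ℤ := (x : ℤ) * (z1 - z0) + (y : ℤ) * (z1 - z2) with hzz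
    by_cases h0 : z = 0
    · rw [h0, Int.cast_zero, add_zero] at hz
      rw [← hz]
      have : J ≤ D * J := by nlinarith [hm0.le.trans hJlow]
      exact (hJlow.trans this).trans (le_abs_self _)
    · have h1 : (1 : ℝ) ≤ |(z : ℝ)| := by
        have := Int.one_le_abs h0
        exact_mod_cast this
      have h2 : D * B * L = D * J - z := by linarith
      have h3 : |(z : ℝ)| ≤ |D * B * L| + |D * J| := by
        have : (z : ℝ) = D * J - D * B * L := by linarith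
        rw [this]
        have := abs_sub (D * J) (D * B * L)
        linarith
      have h4 : |D * J| ≤ 1 / 2 := by
        rw [abs_of_nonneg (mul_nonneg (by linarith) (hm0.le.trans hJlow))]
        exact hJup
      have h5 : m ≤ 1 / 2 := by
        have : J ≤ D * J := by nlinarith [hm0.le.trans hJlow]
        linarith
      linarith
  have hE : (0 : ℝ) < 50000 ^ k * (12 * ((n : ℝ) + 2) ^ 3) ^ k := by positivity
  rw [div_le_iff₀ hE]
  calc m ≤ D * (|B| * |L|) := hBL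
    _ ≤ 50000 ^ k * ((12 * ((n : ℝ) + 2) ^ 3) ^ k * |L|) := by
        refine mul_le_mul hDle (mul_le_mul_of_nonneg_right hBle (abs_nonneg _)) ?_ (by positivity)
        positivity
    _ = |L| * (50000 ^ k * (12 * ((n : ℝ) + 2) ^ 3) ^ k) := by ring

/-- (LF) polynomial lower bound for the linear form -/
theorem LF (n : ℕ) (hn : 200000 ≤ n) : ∃ C : ℕ, 1 ≤ C ∧ ∀ x y : ℕ, x + y ≠ 0 →
    1 / (C * ((x : ℝ) + y)) ^ C ≤
      |x * Real.log (((n : ℝ) + 1) / n) - y * Real.log (((n : ℝ) + 2) / (n + 1))| := by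
  have hn0 : (200000 : ℝ) ≤ n := by exact_mod_cast hn
  set W : ℝ := 64 / 5 * ((n : ℝ) + 2) * (50000 * (12 * ((n : ℝ) + 2) ^ 3)) with hW
  have hn2 : (1 : ℝ) ≤ (n : ℝ) + 2 := by linarith
  have hn3 : (1 : ℝ) ≤ ((n : ℝ) + 2) ^ 3 := one_le_pow₀ hn2
  have hW1 : 1 ≤ W := by
    rw [hW]
    nlinarith [mul_le_mul hn2 hn3 (by norm_num) (by linarith)]
  obtain ⟨c, hc⟩ := pow_unbounded_of_one_lt (W ^ 2) (by norm_num : (1 : ℝ) < 2)
  obtain ⟨C₀, hC₀⟩ := exists_nat_gt (max (c : ℝ) (2 * ((n : ℝ) + 2) * W))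
  have h1 : (c : ℝ) < C₀ := lt_of_le_of_lt (le_max_left _ _) hC₀
  have h2 : 2 * ((n : ℝ) + 2) * W < C₀ := lt_of_le_of_lt (le_max_right _ _) hC₀
  have hc1 : c ≤ C₀ := by exact_mod_cast h1.le
  have hC1 : 1 ≤ C₀ := by
    have : (0 : ℝ) < C₀ := lt_of_le_of_lt (by positivity) h2
    exact_mod_cast this
  refine ⟨C₀, hC1, fun x y hxy => ?_⟩
  set zn : ℕ := x + y with hzn
  have hz1 : 1 ≤ zn := by omega
  have hzr : ((x : ℝ) + y) = (zn : ℝ) := by rw [hzn]; push_cast; ring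
  set l : ℕ := Nat.log 2 zn with hl
  have hl1 : 2 ^ l ≤ zn := Nat.pow_log_le_self 2 (by omega)
  have hl2 : zn < 2 ^ (l + 1) := Nat.lt_pow_succ_log_self (by norm_num) zn
  have hl1r : (2 : ℝ) ^ l ≤ zn := by exact_mod_cast hl1
  have hl2r : (zn : ℝ) < 2 ^ (l + 1) := by exact_mod_cast hl2
  have hsmall : 2 * ((x : ℝ) + y) * 50000 ^ (2 * l + 1) ≤ (n : ℝ) ^ (2 * l + 1) := by
    rw [hzr]
    have e1 : (2 : ℝ) * zn ≤ 4 ^ (2 * l + 1) := by
      have : (4 : ℝ) ^ (2 * l + 1) = 2 * 2 ^ (l + 1) * (2 ^ l * 2 ^ (2 * l)) := by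
        rw [show (4 : ℝ) = 2 ^ 2 by norm_num, ← pow_mul]
        ring
      rw [this]
      have h3 : (1 : ℝ) ≤ 2 ^ l * 2 ^ (2 * l) := by
        have a := one_le_pow₀ (M₀ := ℝ) (a := 2) (by norm_num) (n := l)
        have b := one_le_pow₀ (M₀ := ℝ) (a := 2) (by norm_num) (n := 2 * l)
        nlinarith
      have h4 : (0 : ℝ) < 2 ^ (l + 1) := by positivity
      nlinarith
    calc 2 * (zn : ℝ) * 50000 ^ (2 * l + 1) ≤ 4 ^ (2 * l + 1) * 50000 ^ (2 * l + 1) :=
          mul_le_mul_of_nonneg_right e1 (by positivity)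
      _ = (200000 : ℝ) ^ (2 * l + 1) := by rw [← mul_pow]; norm_num
      _ ≤ (n : ℝ) ^ (2 * l + 1) := pow_le_pow_left₀ (by norm_num) hn0 _
  have hmain := LFk n (2 * l + 1) (by omega) ⟨l, rfl⟩ x y (by omega) hsmall
  refine le_trans ?_ hmain
  have e : 1 / 2 * (5 / 64) ^ (2 * l + 1) / ((n : ℝ) + 2) ^ (2 * l + 1 + 1) /
      (50000 ^ (2 * l + 1) * (12 * ((n : ℝ) + 2) ^ 3) ^ (2 * l + 1)) =
      1 / (2 * ((n : ℝ) + 2) * W ^ (2 * l + 1)) := by
    have hWK : W ^ (2 * l + 1) = (64 / 5) ^ (2 * l + 1) * ((n : ℝ) + 2) ^ (2 * l + 1) *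
        (50000 ^ (2 * l + 1) * (12 * ((n : ℝ) + 2) ^ 3) ^ (2 * l + 1)) := by
      rw [hW, mul_pow, mul_pow, mul_pow]
    have h5 : ((5 : ℝ) / 64) ^ (2 * l + 1) = ((64 / 5) ^ (2 * l + 1))⁻¹ := by
      rw [← inv_pow]
      norm_num
    rw [hWK, h5, pow_succ ((n : ℝ) + 2) (2 * l + 1)]
    have hne : ((n : ℝ) + 2) ≠ 0 := by linarith
    have hA : ((64 : ℝ) / 5) ^ (2 * l + 1) ≠ 0 := by positivity
    have hB : ((n : ℝ) + 2) ^ (2 * l + 1) ≠ 0 := by positivity
    have hC : (50000 : ℝ) ^ (2 * l + 1) ≠ 0 := by positivity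
    have hD : (12 * ((n : ℝ) + 2) ^ 3) ^ (2 * l + 1) ≠ 0 := by positivity
    generalize ((64 : ℝ) / 5) ^ (2 * l + 1) = a at *
    generalize ((n : ℝ) + 2) ^ (2 * l + 1) = b at *
    generalize (50000 : ℝ) ^ (2 * l + 1) = d at *
    generalize (12 * ((n : ℝ) + 2) ^ 3) ^ (2 * l + 1) = f at *
    field_simp
  rw [e, hzr]
  have hzr1 : (1 : ℝ) ≤ zn := by exact_mod_cast hz1
  refine one_div_le_one_div_of_le (by positivity) ?_
  have e2 : W ^ (2 * l + 1) ≤ W * (zn : ℝ) ^ c := by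
    have : W ^ (2 * l + 1) = W * (W ^ 2) ^ l := by
      rw [← pow_mul]
      ring
    rw [this]
    refine mul_le_mul_of_nonneg_left ?_ (by linarith)
    calc (W ^ 2) ^ l ≤ ((2 : ℝ) ^ c) ^ l := pow_le_pow_left₀ (by positivity) hc.le l
      _ = (2 ^ l) ^ c := by rw [← pow_mul, ← pow_mul, mul_comm]
      _ ≤ (zn : ℝ) ^ c := pow_le_pow_left₀ (by positivity) hl1r c
  have hCr : (1 : ℝ) ≤ C₀ := by exact_mod_cast hC1
  calc 2 * ((n : ℝ) + 2) * W ^ (2 * l + 1) ≤ 2 * ((n : ℝ) + 2) * (W * (zn : ℝ) ^ c) :=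
        mul_le_mul_of_nonneg_left e2 (by positivity)
    _ = (2 * ((n : ℝ) + 2) * W) * (zn : ℝ) ^ c := by ring
    _ ≤ C₀ * (zn : ℝ) ^ c := mul_le_mul_of_nonneg_right h2.le (by positivity)
    _ ≤ (C₀ : ℝ) ^ C₀ * (zn : ℝ) ^ C₀ := by
        refine mul_le_mul ?_ (pow_le_pow_right₀ hzr1 hc1) (by positivity) (by positivity)
        calc (C₀ : ℝ) = (C₀ : ℝ) ^ 1 := (pow_one _).symm
          _ ≤ (C₀ : ℝ) ^ C₀ := pow_le_pow_right₀ hCr hC1
    _ = (C₀ * (zn : ℝ)) ^ C₀ := (mul_pow _ _ _).symm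

end Pool.Agent.Helper20.EM
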